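import Pool.Agent.Run7.h432.LV.Stm3

/-!
# Project LV (MP_8daa5c_al), piece COM (helper600): `alt w (g h x) c alt w' y = alt w (h g x) c alt w' y`
-/

set_option autoImplicit false

namespace Run7.h600.LV

open Run7.h432.LV

universe u

/-- the word in which every variable `inr i` is replaced by `inl g, inr i` -/
def ins {U : Type u} {ι : Type} (g : U) : List (U ⊕ ι) → List (U ⊕ ι)
  | [] => []
  | Sum.inl c :: w => Sum.inl c :: ins g w
  | Sum.inr i :: w => Sum.inl g :: Sum.inr i :: ins g w

theorem ev_ins {U : Type u} [Ring U] {ι : Type} (g : U) (w : List (U ⊕ ι)) (x : ι → U) :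
    ev (ins g w) x = ev w (fun i => g * x i) := by
  unfold ev
  induction w with
  | nil => rfl
  | cons l w ih =>
    cases l with
    | inl c =>
      simp only [ins, List.map_cons, List.prod_cons, Sum.elim_inl, id_eq]
      rw [ih]
    | inr i =>
      simp only [ins, List.map_cons, List.prod_cons, Sum.elim_inl, Sum.elim_inr, id_eq]
      rw [ih, mul_assoc]

theorem filterMap_ins {U : Type u} {ι : Type} (g : U) (w : List (U ⊕ ι)) :
    (ins g w).filterMap Sum.getRight? = w.filterMap Sum.getRight? := by
  induction w with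
  | nil => rfl
  | cons l w ih =>
    cases l with
    | inl c => exact ih
    | inr i => exact congrArg (List.cons i) ih

theorem mem_ins {U : Type u} {ι : Type} (g : U) (w : List (U ⊕ ι)) (i : ι)
    (h : (Sum.inr i : U ⊕ ι) ∈ w) : (Sum.inr i : U ⊕ ι) ∈ ins g w := by
  induction w with
  | nil => simp at h
  | cons l w ih =>
    cases l with
    | inl c =>
      have h' : (Sum.inr i : U ⊕ ι) ∈ w := by simpa using h
      simp only [ins, List.mem_cons]
      exact Or.inr (ih h')
    | inr j =>
      simp only [ins, List.mem_cons]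
      rcases List.mem_cons.mp h with h' | h'
      · exact Or.inr (Or.inl h')
      · exact Or.inr (Or.inr (ih h'))

theorem once_ins {U : Type u} {ι : Type} (g : U) (w : List (U ⊕ ι)) (h : Once w) :
    Once (ins g w) := by
  refine ⟨?_, fun i => mem_ins g w i (h.2 i)⟩
  rw [filterMap_ins]
  exact h.1

theorem alt_ins {U : Type u} [Ring U] {n : ℕ} (g : U) (w : List (U ⊕ Fin n)) (x : Fin n → U) :
    alt (ins g w) x = alt w (fun i => g * x i) := by
  unfold alt
  refine Finset.sum_congr rfl fun σ _ => ?_
  rw [ev_ins]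
  rfl

theorem sym_aux (hE : S_EX.{u}) (U : Type u) [Ring U] (I : Ideal U) [I.IsTwoSided] (m : ℕ)
    (hc : Cap I (m + 1)) (w w' : List (U ⊕ Fin m)) (hw : Once w) (hw' : Once w') (c g : U)
    (x y : Fin m → U) (hx : ∀ i, x i ∈ I) (hy : ∀ i, y i ∈ I) :
    alt w (fun i => g * x i) * c * alt w' y = alt w x * c * alt w' (fun i => g * y i) := by
  have h1 := hE U I m hc (ins g w) w' (once_ins g w hw) hw' c x y hx hy
  rw [alt_ins, alt_ins] at h1
  have h2 := hE U I m hc w w' hw hw' c (fun i => g * y i) x
    (fun i => I.mul_mem_left g (hy i)) hx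
  exact h1.trans h2

theorem t_COM (hE : S_EX.{u}) : S_COM.{u} := by
  intro U _ I _ m hc w w' hw hw' c g h x y hx hy
  have e1 : (fun i => g * h * x i) = fun i => g * (h * x i) := by
    funext i; exact mul_assoc _ _ _
  have h1 := sym_aux hE U I m hc w w' hw hw' c g (fun i => h * x i) y
    (fun i => I.mul_mem_left h (hx i)) hy
  have h2 := sym_aux hE U I m hc w w' hw hw' c h x (fun i => g * y i) hx
    (fun i => I.mul_mem_left g (hy i))
  have h3 := sym_aux hE U I m hc w w' hw hw' c (h * g) x y hx hy
  have e2 : (fun i => h * g * y i) = fun i => h * (g * y i) := by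
    funext i; exact mul_assoc _ _ _
  rw [e1, h1, h2, h3, e2]

end Run7.h600.LV
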